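import Pool.Agent.P.MP_16ad8c_co.FanoGraph

namespace Pool.Agent.Results.MP_16ad8c_co.ConnectedCounterexample

open MeasureTheory Pool.Agent.P.MP_16ad8c_co

theorem result :
    ∃ (m n : ℕ) (E : Finset (Fin m × Fin n)),
      E.Nonempty ∧ (graph E).Connected ∧
      EdgeTransitiveUnder E (Subgroup.closure {φ | IsCutInvolution E φ}) ∧
      ∃ W W' : unitInterval × unitInterval → ℝ, BddMeas W ∧ BddMeas W' ∧
        rootDensity E (volume : Measure unitInterval) (volume : Measure unitInterval) W +
            rootDensity E (volume : Measure unitInterval) (volume : Measure unitInterval) W' <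
          rootDensity E (volume : Measure unitInterval) (volume : Measure unitInterval)
            (W + W') := by
  refine ⟨7, 14, fano, Finset.card_pos.1 (by rw [fano_card]; norm_num), fano_connected,
    fano_trans, ?_⟩
  have h := not_tri
  unfold Tri at h
  push Not at h
  exact h

end Pool.Agent.Results.MP_16ad8c_co.ConnectedCounterexample
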