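import Pool.Agent.P.MP_16ad8c_co.Norming
import Pool.Agent.P.MP_16ad8c_co.OI.Main
import Pool.Agent.P.MP_16ad8c_co.OI.StepB2

namespace Pool.Agent.Results.MP_16ad8c_co.FoldIff

open MeasureTheory Pool.Agent.P.MP_16ad8c_co

universe u v

theorem result (V₁ V₂ : Type) [Fintype V₁] [Fintype V₂] (E : Finset (V₁ × V₂))
    (hE : E.Nonempty) :
    (IsNormOn E (volume : Measure unitInterval) (volume : Measure unitInterval) →
      EdgeTransitiveUnder E (Subgroup.closure {φ | IsFold E φ}) ∧
      EdgeTransitiveUnder E (Subgroup.closure {φ | IsCutInvolution E φ})) ∧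
    ((graph E).Connected → EdgeTransitiveUnder E (Subgroup.closure {φ | IsFold E φ}) →
      ∀ (X : Type u) (Y : Type v) [MeasurableSpace X] [MeasurableSpace Y]
        (μ : Measure X) (ν : Measure Y) [IsProbabilityMeasure μ] [IsProbabilityMeasure ν],
        IsNormOn E μ ν) ∧
    ((graph E).Connected →
      (IsNormOn E (volume : Measure unitInterval) (volume : Measure unitInterval) ↔
        EdgeTransitiveUnder E (Subgroup.closure {φ | IsFold E φ}))) := by
  classical
  have h1 : IsNormOn E (volume : Measure unitInterval) (volume : Measure unitInterval) →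
      EdgeTransitiveUnder E (Subgroup.closure {φ | IsFold E φ}) :=
    fun h => OI.onlyIf_of OI.stepB2 h.2.1
  refine ⟨fun h => ⟨h1 h, fun e he f hf => ?_⟩,
    fun hc ht X Y _ _ μ ν _ _ => isNormOn μ ν hE hc ht,
    fun hc => ⟨h1, fun ht => isNormOn _ _ hE hc ht⟩⟩
  obtain ⟨g, hg, h2⟩ := h1 h e he f hf
  exact ⟨g, Subgroup.closure_mono (fun φ hφ => hφ.1) hg, h2⟩

end Pool.Agent.Results.MP_16ad8c_co.FoldIff
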